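import Pool.Agent.Q61.MH.All

/-!
# Crossing points of `g(k;r)` and `g(k+1;r)`, and the maximisers for `s(r)`

The definitions are in `Pool/Agent/Q61/MH/Def.lean`: `S k r = 1^r + … + k^r`,
`g k r = (2k-1)^r / S k r`, targets `IsTarget`, proposals `IsProposal`, the Metropolis–Hastings
transition probabilities `kernel`, `mom r q = E|X₀|^r`, `jump r q φ = E|X₁-X₀|^r` and the supremum
`s r` of their quotient.
-/

set_option autoImplicit false

namespace Pool.Agent.Results.MP_499f6d_pr.CrossingPointsAndMaximisers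

open Pool.Agent.Q61.MH Filter Topology

/-- The conjunction of the statements (a), (b) and (c). -/
theorem result : ∃ ρ : ℕ → ℝ,
    (∀ k, 1 ≤ k → ∀ r : ℝ, g k r = g (k + 1) r ↔ r = ρ k) ∧
    ρ 1 = 1 ∧ (∀ k, 1 ≤ k → 1 ≤ ρ k) ∧ (∀ k, 1 ≤ k → ρ k < ρ (k + 1)) ∧
    Tendsto ρ atTop atTop ∧
    Tendsto (fun k : ℕ => ρ k / (k * Real.log 3)) atTop (𝓝 1) ∧
    (∀ k, 2 ≤ k → ∀ r, ρ (k - 1) < r → r < ρ k →
      s r = ENNReal.ofReal (g k r) ∧ ∀ j, 1 ≤ j → j ≠ k → s r ≠ ENNReal.ofReal (g j r)) ∧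
    (∀ k, 1 ≤ k → ∀ j, 1 ≤ j →
      (s (ρ k) = ENNReal.ofReal (g j (ρ k)) ↔ j = k ∨ j = k + 1)) :=
  final all_root all_uni all_upp all_low all_supr all_unif all_off

end Pool.Agent.Results.MP_499f6d_pr.CrossingPointsAndMaximisers
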